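import Pool.Agent.helper34.AC.Spec

/-!
# AVG: the average in terms of `N` and `N1` (project ac:)
-/

set_option autoImplicit false

namespace Pool.Agent.helper34.AC

/-- AVG. -/
theorem AVG (hPOS : POS_stmt) : AVG_stmt := by
  intro V _ _ G
  have h1 : 1 ≤ N G Finset.univ := (hPOS V G Finset.univ).1
  have h0 : 0 < N G Finset.univ := by linarith
  refine ⟨h0, ?_, ?_⟩
  · have h2 : avg G = (∑ P ∈ col G Finset.univ, (P.card : ℝ)) / N G Finset.univ := rfl
    have h3 : N1 G Finset.univ = (∑ P ∈ col G Finset.univ, (P.card : ℝ)) + N G Finset.univ := by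
      unfold N1 N
      rw [Finset.sum_add_distrib, Finset.sum_const, nsmul_eq_mul, mul_one]
    rw [h2, h3, add_mul, div_mul_cancel₀ _ h0.ne', one_mul]
  · unfold avg
    exact div_nonneg (Finset.sum_nonneg fun P _ => Nat.cast_nonneg _) (Nat.cast_nonneg _)

end Pool.Agent.helper34.AC
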