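import Pool.Agent.helper34.AC.Spec2

/-!
# LAM: the logarithmic derivatives of the polynomials `F_m` (project ac:)
-/

set_option autoImplicit false

namespace Pool.Agent.helper34.AC

/-- LAM. -/
theorem LAM (hBRC : BRC_stmt) (hULC : ULC_stmt) : LAM_stmt := by
  obtain ⟨h0, hrec, -, -, hpos, -, hder⟩ := hBRC
  have hder' : ∀ (m : ℕ) (z : ℝ), HasDerivAt (F (m + 1)) (((m : ℝ) + 1) * F m z) z := hder
  refine ⟨?_, ?_, ?_⟩
  · intro m
    cases m with
    | zero =>
      intro z z' hz hzz'
      have h1 : ∀ x : ℝ, F (0 + 1) x = x + 1 := by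
        intro x
        have := hrec 0 x
        rw [h0, h0] at this
        rw [this]; ring
      unfold lm
      rw [h1, h1, h0, h0]
      push_cast
      apply div_le_div_of_nonneg_left (by norm_num) (by linarith) (by linarith)
    | succ m =>
      have hd : ∀ t : ℝ, 0 ≤ t → HasDerivAt (lm (m + 1)) (-(((m : ℝ) + 2) *
          (((m : ℝ) + 2) * F (m + 1) t ^ 2 - ((m : ℝ) + 1) * (F m t * F (m + 2) t)) /
            F (m + 2) t ^ 2)) t := by
        intro t ht
        have p2 := hpos (m + 2) t ht
        have d2 := hder' (m + 1) t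
        have d1 := hder' m t
        have e1 := (d1.const_mul ((((m + 1 : ℕ) : ℝ)) + 1)).div d2 p2.ne'
        refine e1.congr_deriv ?_
        push_cast
        field_simp
        ring
      have hanti : AntitoneOn (lm (m + 1)) (Set.Ici 0) := by
        apply antitoneOn_of_deriv_nonpos (convex_Ici 0)
        · intro t ht
          exact (hd t ht).continuousAt.continuousWithinAt
        · intro t ht
          rw [interior_Ici] at ht
          exact (hd t (le_of_lt ht)).differentiableAt.differentiableWithinAt
        · intro t ht
          rw [interior_Ici] at ht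
          rw [(hd t (le_of_lt ht)).deriv]
          have ht' : 0 ≤ t := le_of_lt ht
          have := hULC m t ht'
          have h3 : 0 ≤ ((m : ℝ) + 2) *
            (((m : ℝ) + 2) * F (m + 1) t ^ 2 - ((m : ℝ) + 1) * (F m t * F (m + 2) t)) /
              F (m + 2) t ^ 2 := by
            apply div_nonneg _ (sq_nonneg _)
            apply mul_nonneg
            · positivity
            · linarith
          linarith
      intro z z' hz hzz'
      exact hanti (Set.mem_Ici.mpr hz) (Set.mem_Ici.mpr (hz.trans hzz')) hzz'
  · intro m z hz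
    have p1 := hpos (m + 1) z hz
    have p2 := hpos (m + 1 + 1) z hz
    unfold lm
    rw [div_le_div_iff₀ p1 p2]
    have := hULC m z hz
    have e : F (m + 2) z = F (m + 1 + 1) z := rfl
    rw [e] at this
    push_cast
    nlinarith [this]
  · intro m z hz
    have hd : ∀ t ∈ Set.Icc z (z + 1), HasDerivAt (fun x => Real.log (F (m + 1) x)) (lm m t) t := by
      intro t ht
      have ht' : 0 ≤ t := hz.trans ht.1
      exact (hder' m t).log (hpos (m + 1) t ht').ne'
    obtain ⟨c, hc, hc2⟩ := exists_hasDerivAt_eq_slope (fun x => Real.log (F (m + 1) x)) (lm m)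
      (show z < z + 1 by linarith)
      (fun t ht => (hd t ht).continuousAt.continuousWithinAt)
      (fun t ht => hd t (Set.Ioo_subset_Icc_self ht))
    refine ⟨c, Set.Ioo_subset_Icc_self hc, ?_⟩
    rw [hc2, Real.log_div (hpos (m + 1) (z + 1) (by linarith)).ne' (hpos (m + 1) z hz).ne']
    have : z + 1 - z = 1 := by ring
    rw [this, div_one]

end Pool.Agent.helper34.AC
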