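import Pool.Agent.helper34.AC.Spec

/-!
# SIZ: sizes of the blocks that miss a neighbour (project ac:)
-/

set_option autoImplicit false

namespace Pool.Agent.helper34.AC

/-- SIZ. -/
theorem SIZ : SIZ_stmt := by
  intro V _ G U v w hv hw hvw S hS
  simp only [st, Finset.mem_filter, Finset.mem_powerset] at hS
  obtain ⟨hSU, hS⟩ := hS
  have hwS : w ∉ S := by
    intro h
    exact (hS w h).2 v (Finset.mem_singleton_self v) hvw.symm
  have hwv : w ≠ v := hvw.ne'
  have hsub : S ⊆ (U.erase v).erase w := by
    intro x hx
    rw [Finset.mem_erase]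
    refine ⟨?_, hSU hx⟩
    rintro rfl
    exact hwS hx
  have hwe : w ∈ U.erase v := Finset.mem_erase.mpr ⟨hwv, hw⟩
  have c1 : ((U.erase v).erase w).card + 1 = (U.erase v).card := Finset.card_erase_add_one hwe
  have c2 : (U.erase v).card + 1 = U.card := Finset.card_erase_add_one hv
  have c3 := Finset.card_le_card hsub
  have c4 : (U.erase v \ S).card + S.card = (U.erase v).card :=
    Finset.card_sdiff_add_card_eq_card hSU
  exact ⟨by omega, hwS, by omega⟩

end Pool.Agent.helper34.AC
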