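import Pool.Agent.helper34.AC.Spec2

/-!
# ULC: `F_n(z)/n!` is log-concave in `n` (project ac:)
-/

set_option autoImplicit false

namespace Pool.Agent.helper34.AC

/-- ULC. -/
theorem ULC (hBRC : BRC_stmt) (hULB : ULB_stmt) : ULC_stmt := by
  obtain ⟨h0, hrec, hz, -, hpos, -, hder⟩ := hBRC
  have hder' : ∀ (m : ℕ) (z : ℝ), HasDerivAt (F (m + 1)) (((m : ℝ) + 1) * F m z) z := hder
  intro n
  induction n with
  | zero =>
    intro z hz0
    have h1 : ∀ x : ℝ, F 1 x = x + 1 := by
      intro x
      have := hrec 0 x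
      rw [h0, h0] at this
      rw [this]; ring
    have h2 : F 2 z = z ^ 2 + 2 * z + 2 := by
      have := hrec 1 z
      rw [h1, h1] at this
      rw [this]; ring
    have h3 : F (0 + 2) z = z ^ 2 + 2 * z + 2 := h2
    have h4 : F (0 + 1) z = z + 1 := h1 z
    rw [h3, h4, h0]
    push_cast
    nlinarith [sq_nonneg z]
  | succ n ih =>
    intro z hz0
    set D : ℝ → ℝ := fun t => ((n : ℝ) + 3) * F (n + 2) t -
      ((n : ℝ) + 2) * (F (n + 3) t * F (n + 1) t / F (n + 2) t) with hD
    have hderD : ∀ t : ℝ, 0 ≤ t → HasDerivAt D (((n : ℝ) + 2) * F (n + 3) t *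
        (((n : ℝ) + 2) * F (n + 1) t ^ 2 - ((n : ℝ) + 1) * (F n t * F (n + 2) t)) /
          F (n + 2) t ^ 2) t := by
      intro t ht
      have p2 := hpos (n + 2) t ht
      have d3 := hder' (n + 2) t
      have d2 := hder' (n + 1) t
      have d1 := hder' n t
      have e1 := ((d3.mul d1).div d2 p2.ne').const_mul ((n : ℝ) + 2)
      have e2 := (d2.const_mul ((n : ℝ) + 3)).sub e1
      refine e2.congr_deriv ?_
      have e0 : (F (n + 2 + 1) * F (n + 1)) t = F (n + 3) t * F (n + 1) t := rfl
      rw [e0]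
      push_cast
      field_simp
      ring
    have hmono : MonotoneOn D (Set.Ici 0) := by
      apply monotoneOn_of_deriv_nonneg (convex_Ici 0)
      · intro t ht
        exact (hderD t ht).continuousAt.continuousWithinAt
      · intro t ht
        rw [interior_Ici] at ht
        exact (hderD t (le_of_lt ht)).differentiableAt.differentiableWithinAt
      · intro t ht
        rw [interior_Ici] at ht
        rw [(hderD t (le_of_lt ht)).deriv]
        have ht' : 0 ≤ t := le_of_lt ht
        have p3 := hpos (n + 3) t ht'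
        have := ih t ht'
        apply div_nonneg _ (sq_nonneg _)
        apply mul_nonneg
        · positivity
        · linarith
    have hD0 : 0 ≤ D 0 := by
      have p2 := hpos (n + 2) 0 le_rfl
      have hb := hULB (n + 1)
      rw [← hz, ← hz, ← hz] at hb
      have hb' : ((n : ℝ) + 2) * (F (n + 3) 0 * F (n + 1) 0) ≤ ((n : ℝ) + 3) * F (n + 2) 0 ^ 2 := by
        have e : (((n + 1 : ℕ) : ℝ)) = (n : ℝ) + 1 := by push_cast; ring
        rw [e] at hb
        have e2 : F (n + 1 + 2) 0 = F (n + 3) 0 := rfl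
        have e3 : F (n + 1 + 1) 0 = F (n + 2) 0 := rfl
        rw [e2, e3] at hb
        nlinarith [hb]
      simp only [hD]
      rw [sub_nonneg, ← mul_div_assoc, div_le_iff₀ p2]
      nlinarith [hb']
    have hDz : 0 ≤ D z := hD0.trans (hmono (Set.mem_Ici.mpr le_rfl) (Set.mem_Ici.mpr hz0) hz0)
    have p2 := hpos (n + 2) z hz0
    simp only [hD] at hDz
    rw [sub_nonneg, ← mul_div_assoc, div_le_iff₀ p2] at hDz
    have e : (((n + 1 : ℕ) : ℝ)) = (n : ℝ) + 1 := by push_cast; ring
    rw [e]
    have e2 : F (n + 1 + 2) z = F (n + 3) z := rfl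
    have e3 : F (n + 1 + 1) z = F (n + 2) z := rfl
    rw [e2, e3]
    nlinarith [hDz]

end Pool.Agent.helper34.AC
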