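import Pool.Agent.helper34.AC.Spec4

/-!
# SAM: partitions with two given vertices in the same block (project ac:)
-/

set_option autoImplicit false

namespace Pool.Agent.helper34.AC

theorem SAM_mem {V : Type} (G : SimpleGraph V) (U : Finset V) (P : Finset (Finset V)) :
    P ∈ col G U ↔ IsCol G U P := by
  simp only [col, Finset.mem_filter, Finset.mem_powerset]
  constructor
  · exact fun h => h.2
  · intro h
    refine ⟨?_, h⟩
    intro S hS
    exact Finset.mem_powerset.mpr (h.1 S hS).2.1

theorem SAM_card {V : Type} [DecidableEq V] (G : SimpleGraph V) (U : Finset V) (v a : V)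
    (ha : a ∈ U) (hva : v ≠ a) :
    ((col G U).filter (fun P => ∃ B ∈ P, v ∈ B ∧ a ∈ B)).card ≤ (col G (U.erase a)).card := by
  apply Finset.card_le_card_of_injOn (fun P => P.image (fun B => B.erase a))
  · intro P hP
    rw [Finset.mem_coe, Finset.mem_filter, SAM_mem] at hP
    obtain ⟨hP1, B0, hB0, hv0, ha0⟩ := hP
    rw [Finset.mem_coe, SAM_mem]
    refine ⟨?_, ?_⟩
    · intro S hS
      obtain ⟨B, hB, rfl⟩ := Finset.mem_image.mp hS
      have hBs := hP1.1 B hB
      refine ⟨?_, ?_, ?_⟩
      · by_cases haB : a ∈ B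
        · have h1 : B = B0 := (hP1.2 a ha).unique ⟨hB, haB⟩ ⟨hB0, ha0⟩
          rw [h1]
          exact ⟨v, Finset.mem_erase.mpr ⟨hva, hv0⟩⟩
        · rw [Finset.erase_eq_of_notMem haB]
          exact hBs.1
      · exact Finset.erase_subset_erase a hBs.2.1
      · intro x hx y hy
        exact hBs.2.2 x (Finset.mem_of_mem_erase hx) y (Finset.mem_of_mem_erase hy)
    · intro u hu
      obtain ⟨hua, huU⟩ := Finset.mem_erase.mp hu
      obtain ⟨B, ⟨hB, huB⟩, huniq⟩ := hP1.2 u huU
      refine ⟨B.erase a, ⟨Finset.mem_image_of_mem _ hB, Finset.mem_erase.mpr ⟨hua, huB⟩⟩, ?_⟩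
      rintro S ⟨hS, huS⟩
      obtain ⟨B', hB', rfl⟩ := Finset.mem_image.mp hS
      rw [huniq B' ⟨hB', Finset.mem_of_mem_erase huS⟩]
  · have key : ∀ P ∈ (col G U).filter (fun P => ∃ B ∈ P, v ∈ B ∧ a ∈ B),
        (P.image (fun B => B.erase a)).image (fun B => if v ∈ B then insert a B else B) = P := by
      intro P hP
      rw [Finset.mem_filter, SAM_mem] at hP
      obtain ⟨hP1, B0, hB0, hv0, ha0⟩ := hP
      rw [Finset.image_image]
      have h2 : ∀ B ∈ P, ((fun B : Finset V => if v ∈ B then insert a B else B) ∘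
          (fun B : Finset V => B.erase a)) B = id B := by
        intro B hB
        simp only [Function.comp, id]
        by_cases hvB : v ∈ B
        · have hv' : v ∈ B.erase a := Finset.mem_erase.mpr ⟨hva, hvB⟩
          rw [if_pos hv']
          have hvU : v ∈ U := (hP1.1 B hB).2.1 hvB
          have h1 : B = B0 := (hP1.2 v hvU).unique ⟨hB, hvB⟩ ⟨hB0, hv0⟩
          rw [h1]
          exact Finset.insert_erase ha0
        · have hv' : v ∉ B.erase a := fun h => hvB (Finset.mem_of_mem_erase h)
          rw [if_neg hv']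
          apply Finset.erase_eq_of_notMem
          intro haB
          have h1 : B = B0 := (hP1.2 a ha).unique ⟨hB, haB⟩ ⟨hB0, ha0⟩
          rw [h1] at hvB
          exact hvB hv0
      rw [Finset.image_congr (fun B hB => h2 B hB), Finset.image_id]
    intro P hP Q hQ hPQ
    have hPQ' : P.image (fun B => B.erase a) = Q.image (fun B => B.erase a) := hPQ
    rw [← key P hP, ← key Q hQ, hPQ']

/-- SAM. -/
theorem SAM (hREC : REC_stmt) : SAM_stmt := by
  intro V _ G U v a hv ha hva
  have h1 : (((col G U).filter (fun P => ∃ B ∈ P, v ∈ B ∧ a ∈ B)).card : ℝ) ≤ N G (U.erase a) := by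
    unfold N
    exact_mod_cast SAM_card G U v a ha hva
  refine ⟨h1, le_trans (le_of_eq ?_) h1⟩
  have h2 : (((col G U).filter (fun P => ∃ B ∈ P, v ∈ B ∧ a ∈ B)).card : ℝ) =
      ∑ P ∈ col G U, (if ∃ B ∈ P, v ∈ B ∧ a ∈ B then (1 : ℝ) else 0) := by
    rw [Finset.card_filter]
    push_cast
    rfl
  rw [h2, hREC V G U v _ hv, Finset.sum_filter]
  refine Finset.sum_congr rfl fun S hS => ?_
  have h3 : ∀ P ∈ col G (U.erase v \ S),
      (if ∃ B ∈ insert (insert v S) P, v ∈ B ∧ a ∈ B then (1 : ℝ) else 0) =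
        if a ∈ S then 1 else 0 := by
    intro P hP
    rw [SAM_mem] at hP
    have h4 : (∃ B ∈ insert (insert v S) P, v ∈ B ∧ a ∈ B) ↔ a ∈ S := by
      constructor
      · rintro ⟨B, hB, hvB, haB⟩
        rcases Finset.mem_insert.mp hB with rfl | hB
        · rcases Finset.mem_insert.mp haB with h | h
          · exact absurd h.symm hva
          · exact h
        · exfalso
          have := (hP.1 B hB).2.1 hvB
          simp at this
      · intro haS
        exact ⟨insert v S, Finset.mem_insert_self _ _, Finset.mem_insert_self _ _,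
          Finset.mem_insert_of_mem haS⟩
    simp only [h4]
  rw [Finset.sum_congr rfl h3, Finset.sum_const, nsmul_eq_mul]
  unfold N
  by_cases haS : a ∈ S
  · rw [if_pos haS, if_pos haS, mul_one]
  · rw [if_neg haS, if_neg haS, mul_zero]

end Pool.Agent.helper34.AC
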